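import Pool.Agent.helper29.JZ.Spec

set_option autoImplicit false

open Finset Polynomial Module

namespace Pool.Agent.helper67.JZ

open Pool.Agent.helper29.JZ

theorem RE1_col {h h' : ℕ} (M : Finset (Fin h × Fin h')) :
    ∀ z ∈ PA M, ∀ z' ∈ PA M, z.1 = z'.1 → z = z' := by
  intro z hz z' hz' h1
  unfold PA at hz hz'
  rw [Finset.mem_filter] at hz hz'
  have h2 : (M.filter fun w => w.1 = z.1).card ≤ 1 := le_of_eq hz.2
  exact Finset.card_le_one.1 h2 z (Finset.mem_filter.2 ⟨hz.1, rfl⟩) z'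
    (Finset.mem_filter.2 ⟨hz'.1, h1.symm⟩)

theorem RE1_row {h h' : ℕ} (M : Finset (Fin h × Fin h')) (m : Fin h') :
    ((PA M).filter fun z => z.2 = m).card ≤ mA M :=
  Finset.le_sup (f := fun m : Fin h' => ((PA M).filter fun z => z.2 = m).card) (Finset.mem_univ m)

open Classical in
noncomputable def RE1_x {h h' : ℕ} (M : Finset (Fin h × Fin h')) (ρ : Fin h → ℂ) (k : Fin h) : ℂ :=
  if hk : ∃ m, (k, m) ∈ PA M then (((hk.choose : ℕ) : ℂ) + 2) * ρ k else (h' : ℂ) + 3 + ((k : ℕ) : ℂ)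

theorem RE1_x_some {h h' : ℕ} (M : Finset (Fin h × Fin h')) (ρ : Fin h → ℂ) (k : Fin h) (m : Fin h')
    (hm : (k, m) ∈ PA M) : RE1_x M ρ k = (((m : ℕ) : ℂ) + 2) * ρ k := by
  have hk : ∃ m, (k, m) ∈ PA M := ⟨m, hm⟩
  have h1 : hk.choose = m := by
    have h2 := RE1_col M (k, hk.choose) hk.choose_spec (k, m) hm rfl
    exact congrArg Prod.snd h2
  unfold RE1_x
  rw [dif_pos hk, h1]

theorem RE1_x_none {h h' : ℕ} (M : Finset (Fin h × Fin h')) (ρ : Fin h → ℂ) (k : Fin h)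
    (hm : ¬ ∃ m, (k, m) ∈ PA M) : RE1_x M ρ k = (h' : ℂ) + 3 + ((k : ℕ) : ℂ) := by
  unfold RE1_x
  rw [dif_neg hm]

theorem jz_RE1 : RE1_stmt := by
  intro hROT h h' M a ha hmA h2a
  obtain ⟨ρ, hρ1, hρ2⟩ := hROT h h' a (PA M) ha (RE1_col M) (fun m => (RE1_row M m).trans hmA)
  have hnorm : ∀ k, ‖ρ k‖ = 1 := by
    intro k
    have h1 := congrArg norm (hρ1 k)
    rw [norm_pow, norm_one] at h1
    exact (pow_eq_one_iff_of_nonneg (norm_nonneg _) (by omega)).1 h1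
  have hsome : ∀ (k : Fin h) (m : Fin h'), (k, m) ∈ PA M → ‖RE1_x M ρ k‖ = (((m : ℕ) + 2 : ℕ) : ℝ) := by
    intro k m hm
    rw [RE1_x_some M ρ k m hm, norm_mul, hnorm, mul_one]
    have h1 : ((m : ℕ) : ℂ) + 2 = (((m : ℕ) + 2 : ℕ) : ℂ) := by push_cast; ring
    rw [h1, Complex.norm_natCast]
  have hnone : ∀ k : Fin h, (¬ ∃ m, (k, m) ∈ PA M) → ‖RE1_x M ρ k‖ = ((h' + 3 + (k : ℕ) : ℕ) : ℝ) := by
    intro k hm
    rw [RE1_x_none M ρ k hm]
    have h1 : (h' : ℂ) + 3 + ((k : ℕ) : ℂ) = ((h' + 3 + (k : ℕ) : ℕ) : ℂ) := by push_cast; ring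
    rw [h1, Complex.norm_natCast]
  refine ⟨RE1_x M ρ, fun m => (((m : ℕ) : ℂ) + 2) ^ a, ?_, ?_, ?_⟩
  · intro k k' hkk
    have hn := congrArg norm hkk
    by_cases h1 : ∃ m, (k, m) ∈ PA M
    · obtain ⟨m, hm⟩ := h1
      rw [hsome k m hm] at hn
      by_cases h2 : ∃ m, (k', m) ∈ PA M
      · obtain ⟨m', hm'⟩ := h2
        rw [hsome k' m' hm'] at hn
        have h3 : (m : ℕ) + 2 = (m' : ℕ) + 2 := by exact_mod_cast hn
        have h4 : m = m' := Fin.ext (by omega)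
        rw [RE1_x_some M ρ k m hm, RE1_x_some M ρ k' m' hm', h4] at hkk
        have h5 : ((m' : ℕ) : ℂ) + 2 ≠ 0 := by
          have : ((m' : ℕ) : ℂ) + 2 = (((m' : ℕ) + 2 : ℕ) : ℂ) := by push_cast; ring
          rw [this]
          exact Nat.cast_ne_zero.2 (by omega)
        have h6 := mul_left_cancel₀ h5 hkk
        exact congrArg Prod.fst (hρ2 (k, m) hm (k', m') hm' h4 h6)
      · rw [hnone k' h2] at hn
        have h3 : (m : ℕ) + 2 = h' + 3 + (k' : ℕ) := by exact_mod_cast hn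
        have := m.2
        omega
    · rw [hnone k h1] at hn
      by_cases h2 : ∃ m, (k', m) ∈ PA M
      · obtain ⟨m', hm'⟩ := h2
        rw [hsome k' m' hm'] at hn
        have h3 : h' + 3 + (k : ℕ) = (m' : ℕ) + 2 := by exact_mod_cast hn
        have := m'.2
        omega
      · rw [hnone k' h2] at hn
        have h3 : h' + 3 + (k : ℕ) = h' + 3 + (k' : ℕ) := by exact_mod_cast hn
        exact Fin.ext (by omega)
  · intro m m' hmm
    have hmm' : (((m : ℕ) : ℂ) + 2) ^ a = (((m' : ℕ) : ℂ) + 2) ^ a := hmm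
    have h1 : ((((m : ℕ) + 2) ^ a : ℕ) : ℂ) = ((((m' : ℕ) + 2) ^ a : ℕ) : ℂ) := by
      push_cast
      exact hmm'
    have h2 : ((m : ℕ) + 2) ^ a = ((m' : ℕ) + 2) ^ a := by exact_mod_cast h1
    have h3 := Nat.pow_left_injective (by omega : a ≠ 0) h2
    have h4 : (m : ℕ) + 2 = (m' : ℕ) + 2 := h3
    exact Fin.ext (by omega)
  · refine ⟨isCoprime_one_left, ?_, h2a⟩
    have h1 : HC (RE1_x M ρ) (fun m : Fin h' => (((m : ℕ) : ℂ) + 2) ^ a) M 1 (X ^ a) = PA M := by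
      unfold HC
      refine Finset.filter_true_of_mem fun z hz => ?_
      have hz' : (z.1, z.2) ∈ PA M := hz
      rw [RE1_x_some M ρ z.1 z.2 hz', Polynomial.eval_one, Polynomial.eval_pow, Polynomial.eval_X, one_mul,
        mul_pow, hρ1, mul_one]
    rw [h1, Polynomial.natDegree_one, Polynomial.natDegree_X_pow]
    simp

end Pool.Agent.helper67.JZ
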